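import Pool.Agent.Q224.TT.Final

/-!
# Total termination is modular for disjoint term rewrite systems

Idea of the proof: a totally terminating system over a countable signature has a compatible
monotone algebra whose carrier is a well-order of type `ω_ω`.  It consists of pairs `(x, m)` with
`x` in the given countable algebra and `m` in a block of cardinality `ℵ_{r(x)}` of a well-ordered
commutative cancellative monoid, ordered lexicographically, with the operations
`f((x₁, m₁), …) = (f(x₁, …), m₁ + ⋯)`.  So two such systems have compatible algebras on the same
well-order, and the union is compatible with the combined algebra.
-/

set_option autoImplicit false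

namespace Pool.Agent.Results.MP_8e1749_lc.TotalTerminationModular

open Q224.TT

/-- If two term rewrite systems over disjoint countable signatures are totally terminating, then so
is their union. -/
theorem result : ∀ {S S' : Type} [Countable S] [Countable S'] (ar : S → ℕ) (ar' : S' → ℕ)
    (R : Set (Term ar ℕ × Term ar ℕ)) (R' : Set (Term ar' ℕ × Term ar' ℕ)),
    TotallyTerminating R → TotallyTerminating R' → TotallyTerminating (union R R') :=
  fun _ _ _ _ h h' => Q224.TT.main h h'

end Pool.Agent.Results.MP_8e1749_lc.TotalTerminationModular
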